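import Pool.Agent.Y155.BKT.Vill

set_option autoImplicit false

/-!
# The critical inverse temperature of the diluted Villain model: a modulus of continuity in `p`

`betac0 kV p = inf {β ≥ 0 : 𝔼_p[⟨cos(θ_0 - θ_x)⟩_{β,ω}] decays polynomially} ∈ [0,∞]` for the Villain
model is continuous on `(0,1]`, and for `p' < p`, `β_c(p) ≤ b`, `0 < b`,

`1 / β_c(p') ≥ 1 / b - π² / (2 l)`, `l = log (tanh (π² b / 4) p / (p - p'))`, if `π² b < 2 l`;

so where it is finite it has locally the modulus of continuity `K / log (1 / |p - p'|)`.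
Behind it is the comparison

`𝔼_p[⟨cos(θ_0 - θ_x)⟩_β] ≤ 𝔼_{p'}[⟨cos(θ_0 - θ_x)⟩_{β'}]` for all `x`, if `kap β β' p ≤ p'`,

`kap β β' = 1 - tanh (π² β / 4) √(β' / (β' - β)) exp (- π² β β' / (2 (β' - β))) < 1`, `0 < β < β'`.

The definitions (`TT`, `vR`, `vil`, `ccos`, `box`, `edges`, `ext`, `unif`, `wt`, `tpf`, `kV`,
`Jof`, `tpInf`, `avg`, `Poly`) are in `Pool/Agent/H890/XY/Stmts.lean`, `betac0` is in
`Pool/Agent/H890/XY/Gen.lean`, `bern` in `Pool/Agent/H890/Tilt/Key.lean` and `kap` in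
`Pool/Agent/Y155/BKT/Quant.lean`.
-/

namespace Pool.Agent.Results.MP_533d58_pr.VillainModulus

open MeasureTheory Set Filter Topology Real
open Pool.Agent.H890.XY Pool.Agent.Y155.BKT

theorem result :
    -- the finite-volume two-point functions converge to `tpInf`
    (∀ (β : ℝ) (ω : Ed → Bool) (x : Vx),
      Tendsto (fun L : ℕ => tpf kV (Jof β ω) (box L) (edges L) x) atTop (𝓝 (tpInf kV β ω x))) ∧
    -- comparison of the averaged two-point functions with an explicit constant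
    (∀ β β' : ℝ, 0 < β → β < β' → 0 ≤ kap β β' ∧ kap β β' < 1 ∧
      ∀ p p' : unitInterval, kap β β' * p ≤ p' → ∀ x, avg kV p β x ≤ avg kV p' β' x) ∧
    -- continuity of the critical inverse temperature
    ContinuousOn (betac0 kV) {p : unitInterval | 0 < (p : ℝ)} ∧
    -- explicit bounds for its variation
    (∀ p p' : unitInterval, (p' : ℝ) < p → betac0 kV p ≤ betac0 kV p' ∧
      (∀ b β' : ℝ, 0 ≤ b → betac0 kV p ≤ ENNReal.ofReal b → b < β' → kap b β' * p < p' →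
        betac0 kV p' ≤ ENNReal.ofReal β') ∧
      ∀ b l : ℝ, 0 < b → betac0 kV p ≤ ENNReal.ofReal b →
        l = Real.log (Real.tanh (π ^ 2 * b / 4) * p / (p - p')) → π ^ 2 * b < 2 * l →
        betac0 kV p' ≤ ENNReal.ofReal (2 * l * b / (2 * l - π ^ 2 * b))) ∧
    -- a logarithmic modulus of continuity where it is finite
    ∀ p0 : unitInterval, 0 < (p0 : ℝ) → betac0 kV p0 ≠ ⊤ → ∃ K δ : ℝ, 0 < δ ∧
      ∀ p p' : unitInterval, |(p : ℝ) - p0| < δ → |(p' : ℝ) - p0| < δ → p ≠ p' →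
        betac0 kV p ≠ ⊤ ∧ betac0 kV p' ≠ ⊤ ∧ 0 < Real.log (1 / |(p : ℝ) - p'|) ∧
          |(betac0 kV p).toReal - (betac0 kV p').toReal| ≤ K / Real.log (1 / |(p : ℝ) - p'|) := by
  refine ⟨fun β ω x => Gen.tpf_tendsto goodV β ω x,
    fun β β' hβ hlt => ⟨(kap_mem hβ hlt).1, (kap_mem hβ hlt).2,
      fun p p' hp x => transfer hβ hlt p p' hp x⟩, contV,
    fun p p' hlt => ⟨vc_anti (Subtype.coe_le_coe.1 hlt.le),
      fun b β' hb h hbβ hp => vc_lim hb h hbβ hp,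
      fun b l hb h hl hl2 => vc_log hlt hb h hl hl2⟩,
    fun p0 h0 hfin => ?_⟩
  obtain ⟨K, δ, hδ, h⟩ := vc_locLog p0 h0 hfin
  exact ⟨K, δ, hδ, fun p p' hp hp' hne => ⟨(h p p' hp hp' hne).1, (h p' p hp' hp hne.symm).1,
    (h p p' hp hp' hne).2.1, (h p p' hp hp' hne).2.2⟩⟩

end Pool.Agent.Results.MP_533d58_pr.VillainModulus
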