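import Pool.Agent.Y155.BKT.Xyl

set_option autoImplicit false

/-!
# The critical inverse temperature of the diluted XY model is locally Lipschitz in `p`

`betac0 kX p = inf {β ≥ 0 : 𝔼_p[⟨cos(θ_0 - θ_x)⟩_{β,ω}] decays polynomially} ∈ [0,∞]` for the XY
model (edge weight `exp(β cos(θ_x - θ_y))` on open edges) is continuous on `(0,1]`, and where it is
finite it is locally Lipschitz, with the explicit one-sided bound

`β_c(p) ≤ β_c(p') ≤ b + b exp(2(b+1)) (p - p')/p'`, `b = β_c(p)`, `0 < p' ≤ p`,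

as long as `b exp(2(b+1)) (p - p')/p' < 1`. Behind it is the comparison

`𝔼_p[⟨cos(θ_0 - θ_x)⟩_β] ≤ 𝔼_{p'}[⟨cos(θ_0 - θ_x)⟩_{β'}]` for all `x`, if `kapX β β' p ≤ p'`,

with `kapX β β' = β / (β + (β' - β) exp(-2β')) < 1` for `0 < β < β'`.

The definitions (`TT`, `ccos`, `box`, `edges`, `ext`, `unif`, `wt`, `tpf`, `kX`, `Jof`, `tpInf`,
`avg`, `Poly`) are in `Pool/Agent/H890/XY/Stmts.lean`, `betac0` is in
`Pool/Agent/H890/XY/Gen.lean`, `bern` in `Pool/Agent/H890/Tilt/Key.lean` and `kapX` in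
`Pool/Agent/Y155/BKT/Xyl.lean`.
-/

namespace Pool.Agent.Results.MP_533d58_pr.XYLipschitz

open MeasureTheory Set Filter Topology
open Pool.Agent.H890.XY Pool.Agent.Y155.BKT

theorem result :
    -- the finite-volume two-point functions converge to `tpInf`
    (∀ (β : ℝ) (ω : Ed → Bool) (x : Vx),
      Tendsto (fun L : ℕ => tpf kX (Jof β ω) (box L) (edges L) x) atTop (𝓝 (tpInf kX β ω x))) ∧
    -- comparison of the averaged two-point functions with an explicit constant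
    (∀ β β' : ℝ, 0 < β → β < β' → 0 ≤ kapX β β' ∧ kapX β β' < 1 ∧
      ∀ p p' : unitInterval, kapX β β' * p ≤ p' → ∀ x, avg kX p β x ≤ avg kX p' β' x) ∧
    -- continuity of the critical inverse temperature
    ContinuousOn (betac0 kX) {p : unitInterval | 0 < (p : ℝ)} ∧
    -- an explicit bound for its variation
    (∀ p p' : unitInterval, 0 < (p' : ℝ) → p' ≤ p → betac0 kX p ≤ betac0 kX p' ∧
      ∀ b : ℝ, 0 ≤ b → betac0 kX p = ENNReal.ofReal b →
        b * (Real.exp (2 * (b + 1)) * ((p - p') / p')) < 1 →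
        betac0 kX p' ≤ ENNReal.ofReal (b + b * (Real.exp (2 * (b + 1)) * ((p - p') / p')))) ∧
    -- it is locally Lipschitz where it is finite
    ∀ p0 : unitInterval, 0 < (p0 : ℝ) → betac0 kX p0 ≠ ⊤ → ∃ K δ : ℝ, 0 < δ ∧
      ∀ p p' : unitInterval, |(p : ℝ) - p0| < δ → |(p' : ℝ) - p0| < δ →
        betac0 kX p ≠ ⊤ ∧ betac0 kX p' ≠ ⊤ ∧
          |(betac0 kX p).toReal - (betac0 kX p').toReal| ≤ K * |(p : ℝ) - p'| := by
  refine ⟨fun β ω x => Gen.tpf_tendsto goodX' β ω x,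
    fun β β' hβ hlt => ⟨(kapX_mem hβ hlt).1, (kapX_mem hβ hlt).2,
      fun p p' hp x => transferX hβ hlt p p' hp x⟩, ?_,
    fun p p' h0 hle => ⟨bc_anti hle, fun b hb0 hb hs => bc_lip h0 hle ?_ ?_ hs⟩,
    fun p0 h0 hfin => ?_⟩
  · have h : betac0 kX = betac kX := by
      funext p; exact betac0X p
    rw [h]
    exact Gen.cont_betac goodX'
  · rw [hb]
    exact ENNReal.ofReal_ne_top
  · rw [hb, ENNReal.toReal_ofReal hb0]
  · obtain ⟨K, δ, hδ, h⟩ := bc_locLip p0 h0 hfin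
    exact ⟨K, δ, hδ, fun p p' hp hp' => ⟨(h p p' hp hp').1, (h p' p hp' hp).1, (h p p' hp hp').2⟩⟩

end Pool.Agent.Results.MP_533d58_pr.XYLipschitz
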